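import Pool.Agent.MWGI.StmtsC

/-!
# MWGI, row MV2: crossing gives the insertion before a light letter
-/

set_option autoImplicit false

namespace Pool.Agent.MWGI.H45

open Pool.Agent.Helper14_MV Pool.Agent.Helper2_MV Pool.Agent.MVO Pool.Agent.MWL Pool.Agent.MWS
  Pool.Agent.MWH Pool.Agent.MWGI

theorem repc (x : ℕ) (R : List ℕ) : ∀ n : ℕ,
    List.replicate n x ++ x :: R = x :: (List.replicate n x ++ R)
  | 0 => rfl
  | n + 1 => by
    rw [List.replicate_succ, List.cons_append, repc x R n, List.cons_append]

/-- a word with the same letters outside of `H` is admissible -/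
theorem okTr {k : ℕ} {H pre suf l l' : List ℕ} (hO : Ok1 k H pre suf l)
    (h1 : ∀ y ∈ H, 2 ≤ l'.count y) (h2 : ∀ b, b ∉ H → l'.count b = l.count b) :
    Ok1 k H pre suf l' := by
  refine ⟨hO.nd, h1, fun b hb hbH => ?_, hO.muOf h1 h2⟩
  have h3 : 0 < l'.count b := List.count_pos_iff.2 hb
  rw [h2 b hbH] at h3
  have h4 := hO.lt b (List.count_pos_iff.1 h3) hbH
  exact ⟨by rw [h2 b hbH]; exact h4.1, h4.2⟩

/-- **MV2**. -/
theorem mv2 : Mv2Stmt := by
  intro n k η hB H pre suf x a ha hC A D hO
  have hx : x ∈ H := by
    by_contra hx
    have h1 := (hO.lt x (by simp) hx).1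
    rw [List.count_append, List.count_cons, List.count_cons_self, List.count_cons_self] at h1
    omega
  have hxa : x ≠ a := fun e => ha (e ▸ hx)
  have ha' := hO.lt a (by simp) ha
  have hO1 : Ok1 k H pre suf (A ++ x :: a :: (x :: D)) := by
    refine okTr hO (fun y hy => ?_) (fun b hbH => ?_)
    · have h3 := hO.hv y hy
      simp only [List.count_append, List.count_cons] at h3 ⊢
      omega
    · simp only [List.count_append, List.count_cons]
      omega
  have h1 := hC A (x :: D) List.mem_cons_self hO1
  have h2 := hB.it (pre ++ A) [] [a] (D ++ suf) x (by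
    intro b hb
    rw [List.nil_append, List.mem_singleton] at hb
    subst hb
    rcases ha'.2.2 with hp | hs
    · have h3 : 0 < pre.count b := List.count_pos_iff.2 hp
      simp only [List.count_append, List.nil_append, List.count_cons, List.count_nil,
        beq_self_eq_true, if_true]
      omega
    · have h3 : 0 < suf.count b := List.count_pos_iff.2 hs
      simp only [List.count_append, List.nil_append, List.count_cons, List.count_nil,
        beq_self_eq_true, if_true]
      omega)
  have hO' : Ok1 k H pre suf ((A ++ List.replicate n x) ++ x :: a :: (x :: D)) := by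
    refine okTr hO (fun y hy => ?_) (fun b hbH => ?_)
    · have h3 := hO.hv y hy
      simp only [List.count_append, List.count_cons] at h3 ⊢
      omega
    · have hbx : x ≠ b := fun e => hbH (e ▸ hx)
      have h4 : (List.replicate n x).count b = 0 :=
        List.count_eq_zero.2 (fun h => hbx (List.eq_of_mem_replicate h).symm)
      simp only [List.count_append, List.count_cons, h4]
      omega
  have h3 := hC (A ++ List.replicate n x) (x :: D) List.mem_cons_self hO'
  have e1 : pre ++ A ++ x :: ([] ++ ([a] ++ x :: (D ++ suf))) =
      Wd pre suf (A ++ x :: a :: (x :: D)) := by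
    simp [Wd]
  have e2 : pre ++ A ++ x :: ([] ++ (List.replicate n x ++ ([a] ++ x :: (D ++ suf)))) =
      Wd pre suf ((A ++ List.replicate n x) ++ x :: a :: (x :: D)) := by
    rw [List.append_assoc A, repc]
    simp [Wd]
  have e3 : (A ++ List.replicate n x) ++ a :: x :: (x :: D) =
      A ++ (List.replicate n x ++ a :: x :: x :: D) := by simp
  rw [e1, e2] at h2
  rw [e3] at h3
  exact η.trans h1.symm (η.trans h2 h3)

end Pool.Agent.MWGI.H45
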